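import Pool.Agent.P.MP_849d05_an.AbMain

namespace Pool.Agent.Results.MP_849d05_an.AbelianSubgroup

open Pool.Agent.P.MP_849d05_an

theorem result (G : Type) [Group G] (A : Subgroup G) (hA : (A : Set G).Infinite)
    (hc : ∀ a ∈ A, ∀ b ∈ A, a * b = b * a) :
    ∃ f ∈ zafran G, f ∉ closureFS G (radFA G) :=
  Ab.main A hA hc

/-- The case of the integers. -/
theorem case_int : ∃ f ∈ zafran (Multiplicative ℤ),
    f ∉ closureFS (Multiplicative ℤ) (radFA (Multiplicative ℤ)) :=
  result _ ⊤ Set.infinite_univ fun a _ b _ => mul_comm a b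

/-- The case of the countable direct sum of groups of order two. -/
theorem case_two : ∃ f ∈ zafran (Multiplicative (ℕ →₀ ZMod 2)),
    f ∉ closureFS (Multiplicative (ℕ →₀ ZMod 2)) (radFA (Multiplicative (ℕ →₀ ZMod 2))) :=
  result _ ⊤ Set.infinite_univ fun a _ b _ => mul_comm a b

end Pool.Agent.Results.MP_849d05_an.AbelianSubgroup
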